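import Pool.Agent.Helper87.PG.Stmts2
import Pool.Agent.Helper87.VM.BS.Fin

/-!
Module FINALT of `MP_39dd1a_ag` (hand-in `TwoGroups`): the existence theorem for `2 ^ k` components
permuted transitively by a finite group.
-/

set_option autoImplicit false

namespace Pool.Agent.Helper87.PG

open MvPolynomial Pool.Agent.Helper48.VMRT Pool.Agent.Helper87.VM Pool.Agent.Helper87.TC

/-- The data of the construction. -/
theorem finalt_data (hCEX : VM.ST_CEX) (hFDEX : VM.ST_FDEX) (hYPM : VM.ST_YPM)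
    (hYACT : VM.ST_YACT) (hXEX : VM.ST_XEX) (w : ℕ) (ι : Type) [Finite ι] [hι : Nonempty ι]
    (Zi : ι → Set (Fin w → ℂ))
    (G : Type) [Group G] [Fintype G] (ρ : G →* ((Fin w → ℂ) →ₗ[ℂ] (Fin w → ℂ)))
    (hcl : ∀ i, ZClosed (Zi i)) (hcone : ∀ i, ∀ a : ℂ, ∀ z ∈ Zi i, a • z ∈ Zi i)
    (hirr : ∀ i, (vanishingIdeal ℂ (Zi i)).IsPrime) (hne : ∀ i, ∃ z ∈ Zi i, z ≠ 0)
    (hsm : SmoothCone (⋃ i, Zi i)) (hact : ∀ g, ∀ z ∈ ⋃ i, Zi i, ρ g z ∈ ⋃ i, Zi i)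
    (htr : ∀ i j, ∃ g, (fun z => ρ g z) '' Zi i = Zi j) (m : ℕ) (hm : 1 ≤ m)
    (hcard : Nat.card G = 2 ^ m) (heff : ∀ h : G, h ≠ 1 → ∃ x, ρ h x ≠ x)
    (r : ℕ) (hr : 1 ≤ r) (hdim : DimLE r (⋃ i, Zi i))
    (hfix : ∀ h : G, h ≠ 1 →
      Module.finrank ℂ (LinearMap.ker (ρ h - LinearMap.id)) + 2 * r ≤ w)
    (hGENPT : ST_GENPT) (hMAIN2 : ST_MAIN2) :
    ∃ (N d : ℕ) (X : Set (Fin (N + 1) → ℂ)) (H : Set (Coef N d)),
      IsProjManifold w N X ∧ IsFamily X H ∧ IsMinimalComponent X H ∧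
        Isotrivial X H (⋃ i, Zi i) := by
  obtain ⟨κB, iB, dB, π, B, hB, hBf⟩ := hCEX G
  have hZcl : ZClosed (⋃ i, Zi i) := zclosed_iUnion hcl
  have hZcone : ∀ a : ℂ, ∀ z ∈ ⋃ i, Zi i, a • z ∈ ⋃ i, Zi i := by
    intro a z hz
    obtain ⟨i, hi⟩ := Set.mem_iUnion.1 hz
    exact Set.mem_iUnion.2 ⟨i, hcone i a z hi⟩
  have hZne : (⋃ i, Zi i).Nonempty := by
    obtain ⟨i⟩ := hι
    obtain ⟨z, hz, _⟩ := hne i
    exact ⟨z, Set.mem_iUnion.2 ⟨i, hz⟩⟩
  obtain ⟨ν, iν, dν, a, F, ρν, hF⟩ := hFDEX G w (⋃ i, Zi i) ρ hZcl hZcone hZne hsm hact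
  have hY := hYPM G ν w _ ρ a F ρν hF
  have hYa := hYACT G ν w _ ρ a F ρν hF
  have hG : 1 ≤ Fintype.card G := Fintype.card_pos
  have hk : 1 ≤ 2 * Fintype.card G := by omega
  obtain ⟨N, E, hE⟩ := hXEX G κB (Option (Fin w) × ν) π B (tens (oext ρ) ρν) (Yc F) w
    (2 * Fintype.card G) (2 * Fintype.card G * a + 2) hB hBf hY hYa hk (by omega) (by omega)
  let D : VD :=
    { G := G, w := w, ι := ι, Zi := Zi, ρ := ρ, κB := κB, π := π, B := B, ν := ν, a := a,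
      F := F, ρν := ρν, N := N, k := 2 * Fintype.card G, t := 2 * Fintype.card G * a + 2,
      E := E }
  have hD : D.Good :=
    { ine := hι
      Zcl := hcl
      ZZcl := hZcl
      Zcone := hcone
      Zirr := hirr
      Zne := hne
      Zact := hact
      trans := htr
      Bpm := hB
      Bfree := hBf
      fd := hF
      Ypm := hY
      Yact := hYa
      kpos := hk
      kG := by
        change 2 * Fintype.card G ≤ 2 * Fintype.card G + 1
        omega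
      tbig := by
        change 2 * Fintype.card G * a + 1 < 2 * Fintype.card G * a + 2
        omega
      xd := hE }
  have hTD : TD D m :=
    { good := hD
      fin := inferInstanceAs (Finite ι)
      pos := hm
      card := hcard
      eff := heff }
  exact hMAIN2 D m hTD (hGENPT D m r hTD hr hdim hfix)

theorem st_FINALT (hSYL1 : ST_SYL1) (hGENPT : ST_GENPT) (hMAIN2 : ST_MAIN2)
    (hCEX : VM.ST_CEX) (hFDEX : VM.ST_FDEX) (hYPM : VM.ST_YPM) (hYACT : VM.ST_YACT)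
    (hXEX : VM.ST_XEX) : ST_FINALT := by
  classical
  intro n k r ι _ Z hZ hsm hr hdim hk hcard G hGfin hGim hGtr hGfix
  have hinj : ∀ i j, Z i = Z j → i = j := fun i j h => hZ.irredundant i j h.le
  have hι : Nonempty ι := by
    have h0 : Nat.card ι ≠ 0 := by
      rw [hcard]; exact pow_ne_zero _ two_ne_zero
    exact (Nat.card_ne_zero.1 h0).1
  -- the permutation of the components
  choose σ hσ using fun g : G => bs_perm Z hZ (g : (Fin n → ℂ) ≃ₗ[ℂ] (Fin n → ℂ)) (hGim g g.2)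
  let π : G →* Equiv.Perm ι := MonoidHom.mk' σ (by
    intro g h
    refine Equiv.ext fun i => hinj _ _ ?_
    have h1 : (((g * h : G) : (Fin n → ℂ) ≃ₗ[ℂ] (Fin n → ℂ)) : (Fin n → ℂ) → (Fin n → ℂ)) =
      (g : (Fin n → ℂ) ≃ₗ[ℂ] (Fin n → ℂ)) ∘ (h : (Fin n → ℂ) ≃ₗ[ℂ] (Fin n → ℂ)) := rfl
    rw [← hσ (g * h) i, h1, Set.image_comp, hσ h i, hσ g (σ h i)]
    rfl)
  have hπ : ∀ (g : G) i, (g : (Fin n → ℂ) ≃ₗ[ℂ] (Fin n → ℂ)) '' Z i = Z (π g i) :=
    fun g i => hσ g i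
  have htrans : ∀ i j, ∃ g : G, π g i = j := by
    intro i j
    obtain ⟨g, hg, hgi⟩ := hGtr i j
    refine ⟨⟨g, hg⟩, hinj _ _ ?_⟩
    rw [← hπ ⟨g, hg⟩ i]
    exact hgi
  obtain ⟨P, m, hPcard, hPtr⟩ := hSYL1 G ι k π hcard htrans
  have hPfin : Finite P := inferInstance
  have hFt : Fintype P := Fintype.ofFinite _
  have hm : 1 ≤ m := by
    by_contra hm0
    have hm1 : m = 0 := by omega
    rw [hm1, pow_zero] at hPcard
    have hPbot : ∀ s ∈ P, s = 1 := by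
      intro s hs
      have h1 : (⟨s, hs⟩ : P) = 1 := by
        have := (Nat.card_eq_one_iff_unique.1 hPcard).1
        exact Subsingleton.elim _ _
      exact congrArg Subtype.val h1
    have hsub : Subsingleton ι := by
      refine ⟨fun i j => ?_⟩
      obtain ⟨s, hs, hsi⟩ := hPtr i j
      rw [hPbot s hs, map_one] at hsi
      exact hsi
    have h2 : Nat.card ι ≤ 1 := by
      rw [Nat.card_eq_one_iff_unique.2 ⟨hsub, hι⟩]
    rw [hcard] at h2
    have h3 : 2 ^ 1 ≤ 2 ^ k := Nat.pow_le_pow_right (by norm_num) hk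
    omega
  let ρ : P →* ((Fin n → ℂ) →ₗ[ℂ] (Fin n → ℂ)) :=
    { toFun := fun g => ((g : G) : (Fin n → ℂ) ≃ₗ[ℂ] (Fin n → ℂ)).toLinearMap
      map_one' := rfl
      map_mul' := fun _ _ => rfl }
  have hne1 : ∀ h : P, (∀ x, ρ h x = x) → h = 1 := by
    intro h hx
    refine Subtype.ext (Subtype.ext (LinearEquiv.ext fun x => ?_))
    exact hx x
  refine finalt_data hCEX hFDEX hYPM hYACT hXEX n ι Z P ρ hZ.closed hZ.cone
    hZ.irred hZ.exists_ne hsm ?_ ?_ m hm hPcard ?_ r hr hdim ?_ hGENPT hMAIN2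
  · intro h x hx
    have h1 := hGim ((h : G) : (Fin n → ℂ) ≃ₗ[ℂ] (Fin n → ℂ)) (h : G).2
    rw [← h1]
    exact ⟨x, hx, rfl⟩
  · intro i j
    obtain ⟨g, hg, hgi⟩ := hPtr i j
    refine ⟨⟨g, hg⟩, ?_⟩
    rw [← hgi, ← hπ g i]
    rfl
  · intro h hh
    by_contra hcon
    push Not at hcon
    exact hh (hne1 h hcon)
  · intro h hh
    refine hGfix ((h : G) : (Fin n → ℂ) ≃ₗ[ℂ] (Fin n → ℂ)) (h : G).2 ?_ ⟨m, ?_⟩
    · intro h1
      apply hh
      exact Subtype.ext (Subtype.ext h1)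
    · have h1 : h ^ (2 ^ m) = 1 := by
        rw [← hPcard]
        exact pow_card_eq_one'
      have h2 := congrArg (fun x : P => ((x : G) : (Fin n → ℂ) ≃ₗ[ℂ] (Fin n → ℂ))) h1
      simpa using h2

end Pool.Agent.Helper87.PG
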