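import Pool.Agent.Helper87.PG.Stmts
import Pool.Agent.Helper27.TC.RCOMP

/-!
Module RCOMP of `MP_39dd1a_ag` (hand-in `FiniteModels`): composition of resolved quotients.
-/

set_option autoImplicit false

namespace Pool.Agent.Helper87.PG

open MvPolynomial Pool.Agent.Helper48.VMRT Pool.Agent.Helper87.VM Pool.Agent.Helper87.TC

theorem rcompg_notD {κ G : Type} [Fintype κ] [Group G] {n : ℕ} {Y D : Set (κ → ℂ)}
    {σ : G → ((κ → ℂ) →ₗ[ℂ] (κ → ℂ))} (hI : Inp n Y D σ) (g : G)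
    (y : κ → ℂ) (hy : y ∉ D) : σ g y ∉ D := by
  intro hD
  apply hy
  have h1 : σ g⁻¹ (σ g y) ∈ D := hI.dact g⁻¹ _ hD
  obtain ⟨a, ha, hm⟩ := hI.mul g⁻¹ g
  obtain ⟨b, hb, ho⟩ := hI.one
  have h2 : σ (g⁻¹ * g) y = a • σ g⁻¹ (σ g y) := by
    rw [hm]; rfl
  rw [inv_mul_cancel, ho] at h2
  have h3 : b • y = a • σ g⁻¹ (σ g y) := h2
  have h4 : y = (b⁻¹ * a) • σ g⁻¹ (σ g y) := by
    rw [mul_smul, ← h3, smul_smul, inv_mul_cancel₀ hb, one_smul]
  rw [h4]
  exact hI.dcone _ _ h1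

theorem st_RCOMP : ST_RCOMP := by
  intro κ μ ν G G' G'' _ _ _ _ _ _ n m₁ m₂ Y D σ E₁ Y₁ D₁ π σ₁ E₂ X DX π' σ₂ hπ hI h1 h2
  have hev1 : ∀ (a : ℂ) (y : κ → ℂ), ev E₁ (a • y) = a ^ m₁ • ev E₁ y :=
    fun a y => funext fun j => h1.hom j a y
  have hev2 : ∀ (a : ℂ) (y : μ → ℂ), ev E₂ (a • y) = a ^ m₂ • ev E₂ y :=
    fun a y => funext fun j => h2.hom j a y
  exact
    { hom := by
        intro i a y
        rw [eval_aeval, eval_aeval]
        have e : ev E₁ (a • y) = a ^ m₁ • ev E₁ y := hev1 a y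
        rw [e, h2.hom i, ← pow_mul, mul_comm m₁ m₂]
      pm := h2.pm
      img := fun y hy => by rw [rcomp_ev]; exact h2.img _ (h1.img y hy)
      dcl := h2.dcl
      dcone := h2.dcone
      on := fun y hy => by rw [rcomp_ev]; exact h2.on _ (h1.on y hy)
      off := fun y hy hn => by rw [rcomp_ev]; exact h2.off _ (h1.img y hy) (h1.off y hy hn)
      surj := fun x hx hn => by
        obtain ⟨y1, hy1, hn1, rfl⟩ := h2.surj x hx hn
        obtain ⟨y, hy, hny, rfl⟩ := h1.surj y1 hy1 hn1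
        exact ⟨y, hy, hny, (rcomp_ev E₁ E₂ y).symm⟩
      sep := fun y hy hn y' hy' hn' a h => by
        rw [rcomp_ev, rcomp_ev] at h
        obtain ⟨g', c, hc⟩ := h2.sep _ (h1.img y hy) (h1.off y hy hn) _ (h1.img y' hy')
          (h1.off y' hy' hn') a h
        obtain ⟨g, rfl⟩ := hπ g'
        obtain ⟨ε, hε, he⟩ := h1.equi g
        have hc2 : ev E₁ y' = (c * ε⁻¹) • ev E₁ (σ g y) := by
          rw [he y, smul_smul, mul_assoc, inv_mul_cancel₀ hε, mul_one]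
          exact hc
        obtain ⟨g1, c', hc'⟩ := h1.sep _ (hI.act g y hy) (rcompg_notD hI g y hn) y' hy' hn' _ hc2
        obtain ⟨a', ha', hm⟩ := hI.mul g1 g
        refine ⟨g1 * g, c' * a'⁻¹, ?_⟩
        have h5 : σ (g1 * g) y = a' • σ g1 (σ g y) := by
          rw [hm]; rfl
        rw [h5, smul_smul, mul_assoc, inv_mul_cancel₀ ha', mul_one]
        exact hc'
      equi := fun g => by
        obtain ⟨ε₁, hε₁, he₁⟩ := h1.equi g
        obtain ⟨ε₂, hε₂, he₂⟩ := h2.equi (π g)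
        refine ⟨ε₁ ^ m₂ * ε₂, mul_ne_zero (pow_ne_zero _ hε₁) hε₂, fun y => ?_⟩
        rw [rcomp_ev, rcomp_ev, he₁ y, hev2, he₂, smul_smul]
        rfl
      imm := fun y hy hn v hv => by
        rw [rcomp_dev] at hv
        exact h1.imm y hy hn v (h2.imm _ (h1.img y hy) (h1.off y hy hn) _ hv)
      tan := fun y hy hn v hv => by
        rw [rcomp_ev] at hv
        obtain ⟨u1, hu1, rfl⟩ := h2.tan _ (h1.img y hy) (h1.off y hy hn) v hv
        obtain ⟨u, hu, rfl⟩ := h1.tan y hy hn u1 hu1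
        exact ⟨u, hu, (rcomp_dev E₁ E₂ y u).symm⟩
      lift := fun e c hM hX hD => by
        obtain ⟨e1, y1, rfl, hM1, hY1, hD1, hE1⟩ := h2.lift e c hM hX hD
        obtain ⟨e', y, rfl, hM', hY', hD', hE'⟩ := h1.lift e1 y1 hM1 hY1 hD1
        refine ⟨e', y, by ring, hM', hY', hD', fun s t => ?_⟩
        rw [rcomp_ev, hE1, hE']
      sets := fun S hS hc hSY hg => by
        obtain ⟨S1, c1, k1, s1, g1, f1⟩ := h1.sets S hS hc hSY hg
        obtain ⟨S2, c2, k2, s2, g2, f2⟩ := h2.sets S1 c1 k1 s1 g1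
        refine ⟨S2, c2, k2, s2, g2, fun y hy hn => ?_⟩
        rw [rcomp_ev, f2 _ (h1.img y hy) (h1.off y hy hn), f1 y hy hn] }

end Pool.Agent.Helper87.PG
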