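import Pool.Agent.Helper87.PG.Stmts2
import Pool.Agent.Helper97.TC.TAND

/-!
Module TANDG of `MP_39dd1a_ag` (hand-in `TwoGroups`): a general vector is in no space of a family
of subspaces.
-/

set_option autoImplicit false

namespace Pool.Agent.Helper87.PG

open MvPolynomial Pool.Agent.Helper48.VMRT Pool.Agent.Helper87.VM Pool.Agent.Helper87.TC

/-- the main step over a countable subfield -/
theorem tandg_main (k : Subfield ℂ) (hk : Cardinal.mk k ≤ Cardinal.aleph0) (w m m' r : ℕ)
    (ν : Type) [Fintype ν] (Z : Set (Fin w → ℂ)) (A : ν → Fin w → MvPolynomial (Fin w) ℂ)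
    (h2m : m + m' ≤ w) (hcone : ∀ a : ℂ, ∀ z ∈ Z, a • z ∈ Z)
    (hrel : ∀ e : Fin (m + 1) → Fin w, Function.Injective e →
      ∃ P : MvPolynomial (Fin (m + 1)) ℂ, P ≠ 0 ∧ (∀ c ∈ P.coeffs, c ∈ k) ∧
        ∀ z ∈ Z, eval (fun i => z (e i)) P = 0)
    (hAk : ∀ j i, ∀ c ∈ (A j i).coeffs, c ∈ k) (hA : ∀ j i, HomE r (A j i))
    (hker : ∀ z ∈ Z, z ≠ 0 → Module.finrank ℂ (LinearMap.ker (Matrix.mulVecLin
      (Matrix.of fun (j : ν) (i : Fin w) => eval z (A j i)))) ≤ m') :
    ∃ u : Fin w → ℂ, ∀ z ∈ Z, z ≠ 0 → ∃ j, ∑ i, eval z (A j i) * u i ≠ 0 := by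
  set M := AlgebraicIndependent.matroid k ℂ with hM
  obtain ⟨B, hB⟩ := M.exists_isBase
  have hBinf := tand_inf k hk B hB
  let f := hBinf.natEmbedding
  let u : Fin w → ℂ := fun i => (f i : ℂ)
  have huinj : Function.Injective u := by
    intro a b hab
    have h1 : f a = f b := Subtype.ext hab
    exact Fin.ext (f.injective h1)
  have huB : Set.range u ⊆ B := by
    rintro _ ⟨i, rfl⟩
    exact (f i).2
  have hui : M.Indep (Set.range u) := hB.indep.subset huB
  have hucard : (Set.range u).encard = w := by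
    rw [← Set.image_univ, huinj.injOn.encard_image, Set.encard_univ]
    simp
  refine ⟨u, ?_⟩
  intro z hz hz0
  by_contra hcon
  push Not at hcon
  -- choice of t
  have ht : ∃ t : ℂ, t ∉ M.closure (Set.range u ∪ Set.range z) := by
    by_contra hall
    push Not at hall
    have h1 : B ⊆ M.closure (Set.range u ∪ Set.range z) := fun x _ => hall x
    have h2 := hB.indep.encard_le_eRk_of_subset h1
    rw [Matroid.eRk_closure_eq] at h2
    have h3 := h2.trans (M.eRk_le_encard _)
    have h4 : (Set.range u ∪ Set.range z).Finite :=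
      (Set.finite_range u).union (Set.finite_range z)
    have h5 : B.Finite := by
      apply Set.finite_of_encard_le_coe (k := (Set.range u ∪ Set.range z).ncard)
      rw [h4.cast_ncard_eq]
      exact h3
    exact hBinf h5
  obtain ⟨t, ht⟩ := ht
  rw [tand_mem] at ht
  have ht0 : t ≠ 0 := by
    rintro rfl
    exact ht (zero_mem _)
  set z1 : Fin w → ℂ := t • z with hz1
  have hz1Z : z1 ∈ Z := hcone t z hz
  have hz10 : z1 ≠ 0 := smul_ne_zero ht0 hz0
  set A1 : Matrix ν (Fin w) ℂ := Matrix.of fun (j : ν) (i : Fin w) => eval z1 (A j i) with hA1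
  have hAu : A1.mulVec u = 0 := by
    funext j
    have h1 : A1.mulVec u j = ∑ i, eval z1 (A j i) * u i := rfl
    rw [h1]
    have h2 : ∀ i, eval z1 (A j i) * u i = t ^ r * (eval z (A j i) * u i) := by
      intro i
      rw [hz1, hA j i t z]
      ring
    simp only [h2]
    rw [← Finset.mul_sum, hcon j, mul_zero]
    rfl
  obtain ⟨J, hJ, hJL⟩ := tand_ker w m' ν A1 (hker z1 hz1Z hz10)
  set X : Set ℂ := Set.range z1 ∪ u '' (J : Set (Fin w)) with hX
  have huX : ∀ i, u i ∈ tandK k X := by
    apply hJL (tandK k X) u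
    · intro j i
      exact tand_val k z1 (A j i) (hAk j i) X Set.subset_union_left
    · exact hAu
    · intro i hi
      exact tand_sub k X (Or.inr ⟨i, hi, rfl⟩)
  obtain ⟨i0, hi0⟩ := Function.ne_iff.1 hz0
  have hnot : z1 i0 ∉ M.closure (Set.range u) := by
    intro h
    have h1 : z1 i0 ∈ M.closure (Set.range u ∪ Set.range z) :=
      M.closure_subset_closure Set.subset_union_left h
    rw [tand_mem] at h1
    have h2 : z i0 ∈ tandK k (Set.range u ∪ Set.range z) :=
      tand_sub k _ (Or.inr ⟨i0, rfl⟩)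
    apply ht
    have h3 : t = z1 i0 / z i0 := by
      rw [hz1, Pi.smul_apply, smul_eq_mul, mul_div_assoc, div_self hi0, mul_one]
    rw [h3]
    exact div_mem h1 h2
  have hnot' : z1 i0 ∉ Set.range u := by
    intro h
    exact hnot (M.mem_closure_of_mem h)
  have hind : M.Indep (insert (z1 i0) (Set.range u)) := by
    rw [hui.insert_indep_iff]
    exact Or.inl ⟨by simp [hM], hnot⟩
  have hsub : insert (z1 i0) (Set.range u) ⊆ M.closure X := by
    intro x hx
    rcases Set.mem_insert_iff.1 hx with rfl | ⟨i, rfl⟩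
    · exact (tand_mem k X _).2 (tand_sub k X (Or.inl ⟨i0, rfl⟩))
    · exact (tand_mem k X _).2 (huX i)
  have h6 := hind.encard_le_eRk_of_subset hsub
  rw [Matroid.eRk_closure_eq, Set.encard_insert_of_notMem hnot', hucard] at h6
  have h7 : M.eRk X ≤ (m : ℕ∞) + m' := by
    refine (M.eRk_union_le_eRk_add_eRk _ _).trans (add_le_add ?_ ?_)
    · apply tand_rank k w m z1
      intro e he
      obtain ⟨P, hP0, hPk, hP⟩ := hrel e he
      exact ⟨P, hP0, hPk, hP z1 hz1Z⟩
    · refine (M.eRk_le_encard _).trans ?_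
      refine (Set.encard_image_le _ _).trans ?_
      rw [Set.encard_coe_eq_coe_finsetCard]
      exact_mod_cast hJ
  have h8 := h6.trans h7
  have h9 : w + 1 ≤ m + m' := by exact_mod_cast h8
  omega

theorem st_TANDG : ST_TANDG := by
  classical
  intro w m m' r ν _ Z A hw h2m hcone hrel hA hker
  choose P hP0 hP using hrel
  -- the coefficients
  let S : Set ℂ := (⋃ j, ⋃ i, ((A j i).coeffs : Set ℂ)) ∪
    ⋃ e : Fin (m + 1) → Fin w, ⋃ he : Function.Injective e, ((P e he).coeffs : Set ℂ)
  have hS : S.Countable := by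
    apply Set.Countable.union
    · exact Set.countable_iUnion fun j => Set.countable_iUnion fun i =>
        (Finset.finite_toSet _).countable
    · exact Set.countable_iUnion fun e => Set.countable_iUnion fun he =>
        (Finset.finite_toSet _).countable
  have hk : Cardinal.mk (Subfield.closure S) ≤ Cardinal.aleph0 := by
    refine (Subfield.cardinalMk_closure_le_max S).trans (max_le ?_ le_rfl)
    exact Cardinal.mk_le_aleph0_iff.2 hS.to_subtype
  apply tandg_main (Subfield.closure S) hk w m m' r ν Z A h2m hcone _ _ hA hker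
  · intro e he
    refine ⟨P e he, hP0 e he, ?_, hP e he⟩
    intro c hc
    apply Subfield.subset_closure
    refine Or.inr (Set.mem_iUnion.2 ⟨e, Set.mem_iUnion.2 ⟨he, hc⟩⟩)
  · intro j i c hc
    apply Subfield.subset_closure
    exact Or.inl (Set.mem_iUnion.2 ⟨j, Set.mem_iUnion.2 ⟨i, hc⟩⟩)

end Pool.Agent.Helper87.PG
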